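import Mathlib
import Pool.Agent.R143.MonoPath

set_option autoImplicit false

/-!
# Dense point sets in general position with monotone path covers of linear size

The points `(x, y) + ε (x² + y²) (√2, 1)` of a slightly bent grid. For a primitive direction `d` and
an integer `t ≥ 0` the points are sorted in a direction close to the normal of `d`, such that on
every grid line in direction `d` they are sorted by the distance of `⟨P, d⟩` to
`κ = t |d|² + 1/4`. These `O(n)` paths cover all segments.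
-/

namespace Pool.Agent.Results.MP_9c8b61_co.LinearCover

open Pool.Agent.R143.MonoPath Filter Topology

/-- squared norm -/
def N (P : ℤ × ℤ) : ℤ := P.1 ^ 2 + P.2 ^ 2

/-- the bent grid -/
noncomputable def f (ε : ℝ) (P : ℤ × ℤ) : Plane :=
  !₂[(P.1 : ℝ) + ε * (N P * √2), (P.2 : ℝ) + ε * N P]

@[simp] theorem f_zero (ε : ℝ) (P : ℤ × ℤ) : (f ε P) 0 = (P.1 : ℝ) + ε * (N P * √2) := by simp [f]
@[simp] theorem f_one (ε : ℝ) (P : ℤ × ℤ) : (f ε P) 1 = (P.2 : ℝ) + ε * N P := by simp [f]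

/-- scalar product with `d` -/
def sd (d P : ℤ × ℤ) : ℤ := d.1 * P.1 + d.2 * P.2
/-- scalar product with the normal of `d` -/
def bd (d P : ℤ × ℤ) : ℤ := -d.2 * P.1 + d.1 * P.2

theorem sqrt_lin {p q : ℤ} (h : √2 * (q : ℝ) - p = 0) : p = 0 ∧ q = 0 := by
  have hirr := irrational_sqrt_two
  by_cases hq : q = 0
  · subst hq
    simp only [Int.cast_zero, mul_zero, zero_sub, neg_eq_zero, Int.cast_eq_zero] at h
    exact ⟨h, rfl⟩
  · exfalso
    apply hirr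
    refine ⟨(p : ℚ) / q, ?_⟩
    have : (q : ℝ) ≠ 0 := by exact_mod_cast hq
    push_cast
    rw [div_eq_iff this]
    linarith

/-- the direction -/
noncomputable def U (ε : ℝ) (d : ℤ × ℤ) (κ : ℝ) : Plane :=
  !₂[(N d + 2 * κ * ε * (√2 * d.1 + d.2)) * (-(d.2 : ℝ)) - 2 * κ * ε * (d.1 - √2 * d.2) * d.1,
    (N d + 2 * κ * ε * (√2 * d.1 + d.2)) * (d.1 : ℝ) - 2 * κ * ε * (d.1 - √2 * d.2) * d.2]

theorem inner_U (ε : ℝ) (d : ℤ × ℤ) (κ : ℝ) (P : ℤ × ℤ) : inner ℝ (f ε P) (U ε d κ) =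
    (N d + 2 * κ * ε * (√2 * d.1 + d.2)) * bd d P +
      ε * (d.1 - √2 * d.2) * ((bd d P : ℝ) ^ 2 + (sd d P : ℝ) ^ 2 - 2 * κ * sd d P) := by
  rw [inner_eq]
  simp only [f_zero, f_one, U]
  simp only [Matrix.cons_val_zero, Matrix.cons_val_one, Matrix.cons_val_fin_one]
  simp only [bd, sd, N]
  push_cast
  ring

/-! ### Conditions holding for all sufficiently small `ε > 0` -/

theorem ev_bd (d : ℤ × ℤ) (κ : ℝ) (P Q : ℤ × ℤ) (hd : 0 < N d) (h : bd d P < bd d Q) :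
    ∀ᶠ ε in 𝓝[>] (0 : ℝ), inner ℝ (f ε P) (U ε d κ) < inner ℝ (f ε Q) (U ε d κ) := by
  have h0 : (N d : ℝ) * bd d P < N d * bd d Q := by
    apply mul_lt_mul_of_pos_left
    · exact_mod_cast h
    · exact_mod_cast hd
  have h1 : Tendsto (fun ε : ℝ => inner ℝ (f ε P) (U ε d κ)) (𝓝[>] 0) (𝓝 ((N d : ℝ) * bd d P)) := by
    apply tendsto_nhdsWithin_of_tendsto_nhds
    have : Continuous (fun ε : ℝ => inner ℝ (f ε P) (U ε d κ)) := by
      simp only [inner_U]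
      fun_prop
    have h2 := this.tendsto 0
    simp only [inner_U] at h2 ⊢
    simpa using h2
  have h2 : Tendsto (fun ε : ℝ => inner ℝ (f ε Q) (U ε d κ)) (𝓝[>] 0) (𝓝 ((N d : ℝ) * bd d Q)) := by
    apply tendsto_nhdsWithin_of_tendsto_nhds
    have : Continuous (fun ε : ℝ => inner ℝ (f ε Q) (U ε d κ)) := by
      simp only [inner_U]
      fun_prop
    have h2 := this.tendsto 0
    simp only [inner_U] at h2 ⊢
    simpa using h2
  exact h1.eventually_lt h2 h0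

theorem dist_f (ε : ℝ) (P Q : ℤ × ℤ) : dist (f ε P) (f ε Q) =
    √(((P.1 : ℝ) + ε * (N P * √2) - (Q.1 + ε * (N Q * √2))) ^ 2 +
      ((P.2 : ℝ) + ε * N P - (Q.2 + ε * N Q)) ^ 2) := by
  rw [EuclideanSpace.dist_eq, Fin.sum_univ_two]
  simp only [f_zero, f_one, Real.dist_eq, sq_abs]

theorem tendsto_dist (P Q : ℤ × ℤ) : Tendsto (fun ε : ℝ => dist (f ε P) (f ε Q)) (𝓝[>] 0)
    (𝓝 (√(((P.1 : ℝ) - Q.1) ^ 2 + ((P.2 : ℝ) - Q.2) ^ 2))) := by
  apply tendsto_nhdsWithin_of_tendsto_nhds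
  have : Continuous (fun ε : ℝ => dist (f ε P) (f ε Q)) := by
    simp only [dist_f]
    fun_prop
  have h2 := this.tendsto 0
  simp only [dist_f] at h2 ⊢
  simpa using h2

theorem ev_near (P Q : ℤ × ℤ) (h : P ≠ Q) :
    ∀ᶠ ε in 𝓝[>] (0 : ℝ), 1 / 2 < dist (f ε P) (f ε Q) := by
  have h1 := tendsto_dist P Q
  apply h1.eventually_const_lt
  have h2 : (1 : ℝ) ≤ ((P.1 : ℝ) - Q.1) ^ 2 + ((P.2 : ℝ) - Q.2) ^ 2 := by
    have h3 : (1 : ℤ) ≤ (P.1 - Q.1) ^ 2 + (P.2 - Q.2) ^ 2 := by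
      by_contra hc
      have h4 : (P.1 - Q.1) ^ 2 + (P.2 - Q.2) ^ 2 = 0 := by
        have := add_nonneg (sq_nonneg (P.1 - Q.1)) (sq_nonneg (P.2 - Q.2))
        omega
      have h5 : P.1 - Q.1 = 0 := by
        have : (P.1 - Q.1) ^ 2 = 0 := by nlinarith [sq_nonneg (P.1 - Q.1), sq_nonneg (P.2 - Q.2)]
        exact pow_eq_zero_iff two_ne_zero |>.mp this
      have h6 : P.2 - Q.2 = 0 := by
        have : (P.2 - Q.2) ^ 2 = 0 := by nlinarith [sq_nonneg (P.1 - Q.1), sq_nonneg (P.2 - Q.2)]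
        exact pow_eq_zero_iff two_ne_zero |>.mp this
      exact h (Prod.ext (by omega) (by omega))
    exact_mod_cast h3
  calc (1 / 2 : ℝ) < 1 := by norm_num
    _ = √1 := by simp
    _ ≤ _ := Real.sqrt_le_sqrt h2

theorem ev_far (m : ℕ) (hm : 0 < m) (P Q : ℤ × ℤ) (h1 : |P.1 - Q.1| ≤ m) (h2 : |P.2 - Q.2| ≤ m) :
    ∀ᶠ ε in 𝓝[>] (0 : ℝ), dist (f ε P) (f ε Q) < 2 * m := by
  have h := tendsto_dist P Q
  apply h.eventually_lt_const
  rw [Real.sqrt_lt' (by positivity)]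
  have e1 : (((P.1 : ℝ) - Q.1)) ^ 2 ≤ (m : ℝ) ^ 2 := by
    apply sq_le_sq.mpr
    rw [abs_of_nonneg (Nat.cast_nonneg m : (0 : ℝ) ≤ m)]
    exact_mod_cast h1
  have e2 : (((P.2 : ℝ) - Q.2)) ^ 2 ≤ (m : ℝ) ^ 2 := by
    apply sq_le_sq.mpr
    rw [abs_of_nonneg (Nat.cast_nonneg m : (0 : ℝ) ≤ m)]
    exact_mod_cast h2
  have e3 : (0 : ℝ) < (m : ℝ) ^ 2 := by positivity
  nlinarith

/-- determinant of three bent points -/
noncomputable def dt (ε : ℝ) (P Q R : ℤ × ℤ) : ℝ :=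
  ((f ε Q) 0 - (f ε P) 0) * ((f ε R) 1 - (f ε P) 1) -
    ((f ε Q) 1 - (f ε P) 1) * ((f ε R) 0 - (f ε P) 0)

theorem ev_dt (P Q R : ℤ × ℤ) (hPQ : P ≠ Q) (hQR : Q ≠ R) (hPR : P ≠ R) :
    ∀ᶠ ε in 𝓝[>] (0 : ℝ), dt ε P Q R ≠ 0 := by
  obtain ⟨c0, hc0⟩ : ∃ c0 : ℝ, c0 = ((Q.1 : ℝ) - P.1) * (R.2 - P.2) - (Q.2 - P.2) * (R.1 - P.1) :=
    ⟨_, rfl⟩
  obtain ⟨c1, hc1⟩ : ∃ c1 : ℝ, c1 = ((N Q : ℝ) - N P) * (√2 * (R.2 - P.2) - (R.1 - P.1)) +
      ((N R : ℝ) - N P) * ((Q.1 - P.1) - √2 * (Q.2 - P.2)) := ⟨_, rfl⟩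
  have hdt : ∀ ε, dt ε P Q R = c0 + ε * c1 := by
    intro ε
    rw [hc0, hc1]
    simp only [dt, f_zero, f_one]
    ring
  by_cases h0 : c0 = 0
  · have h1 : c1 ≠ 0 := by
      obtain ⟨a1, ha1⟩ : ∃ a1 : ℝ, a1 = (Q.1 : ℝ) - P.1 := ⟨_, rfl⟩
      obtain ⟨a2, ha2⟩ : ∃ a2 : ℝ, a2 = (Q.2 : ℝ) - P.2 := ⟨_, rfl⟩
      obtain ⟨b1, hb1⟩ : ∃ b1 : ℝ, b1 = (R.1 : ℝ) - P.1 := ⟨_, rfl⟩
      obtain ⟨b2, hb2⟩ : ∃ b2 : ℝ, b2 = (R.2 : ℝ) - P.2 := ⟨_, rfl⟩
      have hX : √2 * a2 - a1 ≠ 0 := by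
        intro h
        rw [ha1, ha2] at h
        have := sqrt_lin (p := Q.1 - P.1) (q := Q.2 - P.2) (by push_cast; exact h)
        exact hPQ (Prod.ext (by omega) (by omega))
      have hk : a1 ^ 2 + a2 ^ 2 ≠ 0 := by
        intro h
        apply hX
        have e1 : a1 = 0 := by nlinarith [sq_nonneg a1, sq_nonneg a2]
        have e2 : a2 = 0 := by nlinarith [sq_nonneg a1, sq_nonneg a2]
        rw [e1, e2]; ring
      rw [← ha1, ← ha2, ← hb1, ← hb2] at hc0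
      rw [h0] at hc0
      obtain ⟨r, hr⟩ : ∃ r : ℝ, r = (a1 * b1 + a2 * b2) / (a1 ^ 2 + a2 ^ 2) := ⟨_, rfl⟩
      rw [eq_div_iff hk] at hr
      have e1 : b1 = r * a1 := by
        apply mul_right_cancel₀ hk
        linear_combination (a2) * hc0 - a1 * hr
      have e2 : b2 = r * a2 := by
        apply mul_right_cancel₀ hk
        linear_combination (-a1) * hc0 - a2 * hr
      have hr0 : r ≠ 0 := by
        intro h
        rw [h, zero_mul] at e1 e2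
        apply hPR
        rw [e1] at hb1
        rw [e2] at hb2
        have g1 : (P.1 : ℝ) = R.1 := by linarith
        have g2 : (P.2 : ℝ) = R.2 := by linarith
        exact Prod.ext (by exact_mod_cast g1) (by exact_mod_cast g2)
      have hr1 : 1 - r ≠ 0 := by
        intro h
        have h' : r = 1 := by linarith
        rw [h', one_mul] at e1 e2
        apply hQR
        have g1 : (Q.1 : ℝ) = R.1 := by linarith
        have g2 : (Q.2 : ℝ) = R.2 := by linarith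
        exact Prod.ext (by exact_mod_cast g1) (by exact_mod_cast g2)
      have hQ1 : (Q.1 : ℝ) = P.1 + a1 := by linarith
      have hQ2 : (Q.2 : ℝ) = P.2 + a2 := by linarith
      have hR1 : (R.1 : ℝ) = P.1 + r * a1 := by linarith
      have hR2 : (R.2 : ℝ) = P.2 + r * a2 := by linarith
      have : c1 = (√2 * a2 - a1) * (r * (1 - r)) * (a1 ^ 2 + a2 ^ 2) := by
        rw [hc1]
        simp only [N]
        push_cast
        rw [hQ1, hQ2, hR1, hR2]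
        ring
      rw [this]
      exact mul_ne_zero (mul_ne_zero hX (mul_ne_zero hr0 hr1)) hk
    filter_upwards [self_mem_nhdsWithin] with ε hε
    rw [hdt, h0, zero_add]
    exact mul_ne_zero (ne_of_gt hε) h1
  · have h2 : Tendsto (fun ε : ℝ => dt ε P Q R) (𝓝[>] 0) (𝓝 c0) := by
      apply tendsto_nhdsWithin_of_tendsto_nhds
      have : Continuous (fun ε : ℝ => dt ε P Q R) := by
        simp only [hdt]
        fun_prop
      have h3 := this.tendsto 0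
      simp only [hdt] at h3 ⊢
      simpa using h3
    exact h2.eventually_ne h0

theorem not_collinear {a b c : Plane}
    (h : (b 0 - a 0) * (c 1 - a 1) - (b 1 - a 1) * (c 0 - a 0) ≠ 0) :
    ¬ Collinear ℝ ({a, b, c} : Set Plane) := by
  intro hc
  apply h
  rw [collinear_iff_of_mem (p₀ := a) (by simp)] at hc
  obtain ⟨v, hv⟩ := hc
  obtain ⟨r, hr⟩ := hv b (by simp)
  obtain ⟨s, hs⟩ := hv c (by simp)
  rw [hr, hs]
  simp only [vadd_eq_add, PiLp.add_apply, PiLp.smul_apply, smul_eq_mul]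
  ring

/-! ### The order on the lines in direction `d` -/

/-- signed distance to `κ = t |d|² + 1/4`, times 4 -/
def yy (d : ℤ × ℤ) (t : ℤ) (P : ℤ × ℤ) : ℤ := 4 * sd d P - (4 * t * N d + 1)

/-- the center -/
noncomputable def kap (d : ℤ × ℤ) (t : ℤ) : ℝ := t * N d + 1 / 4

theorem inner_diff (ε : ℝ) (d : ℤ × ℤ) (t : ℤ) (P Q : ℤ × ℤ) (h : bd d P = bd d Q) :
    inner ℝ (f ε Q) (U ε d (kap d t)) - inner ℝ (f ε P) (U ε d (kap d t)) =
      ε * (d.1 - √2 * d.2) / 16 * ((yy d t Q : ℝ) ^ 2 - (yy d t P : ℝ) ^ 2) := by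
  rw [inner_U, inner_U, h]
  simp only [kap, yy]
  push_cast
  ring

theorem eq_of_sd_bd {d P Q : ℤ × ℤ} (hd : 0 < N d) (h1 : sd d P = sd d Q) (h2 : bd d P = bd d Q) :
    P = Q := by
  unfold sd at h1
  unfold bd at h2
  have e1 : N d * (P.1 - Q.1) = 0 := by
    unfold N
    linear_combination d.1 * h1 - d.2 * h2
  have e2 : N d * (P.2 - Q.2) = 0 := by
    unfold N
    linear_combination d.2 * h1 + d.1 * h2
  have e3 := (mul_eq_zero.mp e1).resolve_left hd.ne'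
  have e4 := (mul_eq_zero.mp e2).resolve_left hd.ne'
  exact Prod.ext (by omega) (by omega)

theorem wb_ne {d : ℤ × ℤ} (hd : 0 < N d) : (d.1 : ℝ) - √2 * d.2 ≠ 0 := by
  intro h
  obtain ⟨h1, h2⟩ := sqrt_lin (p := d.1) (q := d.2) (by linarith)
  unfold N at hd
  rw [h1, h2] at hd
  norm_num at hd

theorem inner_inj {ε : ℝ} (hε : 0 < ε) {d : ℤ × ℤ} (hd : 0 < N d) {t : ℤ} {G : Finset (ℤ × ℤ)}
    (hG : ∀ P ∈ G, ∀ Q ∈ G, bd d P < bd d Q →
      inner ℝ (f ε P) (U ε d (kap d t)) < inner ℝ (f ε Q) (U ε d (kap d t)))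
    {P Q : ℤ × ℤ} (hP : P ∈ G) (hQ : Q ∈ G)
    (h : inner ℝ (f ε P) (U ε d (kap d t)) = inner ℝ (f ε Q) (U ε d (kap d t))) : P = Q := by
  rcases lt_trichotomy (bd d P) (bd d Q) with h1 | h1 | h1
  · exact absurd h (hG P hP Q hQ h1).ne
  · have h2 := inner_diff ε d t P Q h1
    rw [h, sub_self] at h2
    have h3 : ε * ((d.1 : ℝ) - √2 * d.2) / 16 ≠ 0 :=
      div_ne_zero (mul_ne_zero hε.ne' (wb_ne hd)) (by norm_num)
    have h4 := (mul_eq_zero.mp h2.symm).resolve_left h3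
    have h5 : (yy d t Q) ^ 2 = (yy d t P) ^ 2 := by
      have : ((yy d t Q : ℝ)) ^ 2 = (yy d t P : ℝ) ^ 2 := by linarith
      exact_mod_cast this
    rcases sq_eq_sq_iff_eq_or_eq_neg.mp h5 with h6 | h6
    · refine eq_of_sd_bd hd ?_ h1
      unfold yy at h6
      omega
    · exfalso
      unfold yy at h6
      obtain ⟨z, hz⟩ : ∃ z, z = t * N d := ⟨_, rfl⟩
      rw [mul_assoc 4 t (N d), ← hz] at h6
      omega
  · exact absurd h.symm (hG Q hQ P hP h1).ne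

theorem step_nonneg {k S H : ℤ} (h : |S| < H) : 0 ≤ k * (S + k * H) := by
  obtain ⟨h1, h2⟩ := abs_lt.mp h
  rcases lt_trichotomy k 0 with hk | hk | hk
  · have h3 : S + k * H ≤ 0 := by nlinarith
    exact mul_nonneg_of_nonpos_of_nonpos hk.le h3
  · subst hk; simp
  · have h3 : 0 ≤ S + k * H := by nlinarith
    exact mul_nonneg hk.le h3

theorem no_between {H yP yQ yR a c : ℤ} (hQ : yQ = yP + a * H) (hR : yR = yP + c * H)
    (hS : |yP + yQ| < H) : 0 ≤ (yR ^ 2 - yP ^ 2) * (yR ^ 2 - yQ ^ 2) := by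
  have h1 := step_nonneg (k := c) hS
  have h2 := step_nonneg (k := c - a) hS
  have e : (yR ^ 2 - yP ^ 2) * (yR ^ 2 - yQ ^ 2) =
      H ^ 2 * ((c * (yP + yQ + c * H)) * ((c - a) * (yP + yQ + (c - a) * H))) := by
    subst hQ hR
    ring
  rw [e]
  exact mul_nonneg (sq_nonneg _) (mul_nonneg h1 h2)

/-- consecutive points on a line -/
theorem consecutive {ε : ℝ} {d : ℤ × ℤ} (hd : 0 < N d) (hcop : IsCoprime d.1 d.2)
    {t : ℤ} {G : Finset (ℤ × ℤ)}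
    (hG : ∀ P ∈ G, ∀ Q ∈ G, bd d P < bd d Q →
      inner ℝ (f ε P) (U ε d (kap d t)) < inner ℝ (f ε Q) (U ε d (kap d t)))
    {P Q R : ℤ × ℤ} (hP : P ∈ G) (hQ : Q ∈ G) (hR : R ∈ G) {a : ℤ}
    (hPQ1 : Q.1 = P.1 + a * d.1) (hPQ2 : Q.2 = P.2 + a * d.2)
    (hS : |4 * t * N d + 1 - 2 * (sd d P + sd d Q)| < 2 * N d) :
    ¬ (inner ℝ (f ε P) (U ε d (kap d t)) < inner ℝ (f ε R) (U ε d (kap d t)) ∧
      inner ℝ (f ε R) (U ε d (kap d t)) < inner ℝ (f ε Q) (U ε d (kap d t))) ∧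
    ¬ (inner ℝ (f ε Q) (U ε d (kap d t)) < inner ℝ (f ε R) (U ε d (kap d t)) ∧
      inner ℝ (f ε R) (U ε d (kap d t)) < inner ℝ (f ε P) (U ε d (kap d t))) := by
  have hb : bd d P = bd d Q := by
    unfold bd
    rw [hPQ1, hPQ2]
    ring
  rcases lt_trichotomy (bd d P) (bd d R) with h1 | h1 | h1
  · have h2 := hG P hP R hR h1
    have h3 := hG Q hQ R hR (hb ▸ h1)
    exact ⟨fun h => absurd h.2 (not_lt.mpr h3.le), fun h => absurd h.2 (not_lt.mpr h2.le)⟩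
  · have hprod : 0 ≤ (inner ℝ (f ε R) (U ε d (kap d t)) - inner ℝ (f ε P) (U ε d (kap d t))) *
        (inner ℝ (f ε R) (U ε d (kap d t)) - inner ℝ (f ε Q) (U ε d (kap d t))) := by
      rw [inner_diff ε d t P R h1, inner_diff ε d t Q R (hb.symm.trans h1)]
      obtain ⟨x, y, hxy⟩ := hcop
      obtain ⟨c, hc⟩ : ∃ c, c = x * (R.1 - P.1) + y * (R.2 - P.2) := ⟨_, rfl⟩
      unfold bd at h1
      have hc1 : R.1 = P.1 + c * d.1 := by
        rw [hc]
        linear_combination (P.1 - R.1) * hxy + y * h1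
      have hc2 : R.2 = P.2 + c * d.2 := by
        rw [hc]
        linear_combination (P.2 - R.2) * hxy - x * h1
      have h2 := no_between (H := 4 * N d) (yP := yy d t P) (yQ := yy d t Q) (yR := yy d t R)
        (a := a) (c := c) (by
          unfold yy sd N
          rw [hPQ1, hPQ2]
          ring) (by
          unfold yy sd N
          rw [hc1, hc2]
          ring) (by
          have e : yy d t P + yy d t Q = -2 * (4 * t * N d + 1 - 2 * (sd d P + sd d Q)) := by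
            unfold yy
            ring
          rw [e, abs_mul]
          have : |(-2 : ℤ)| = 2 := by norm_num
          rw [this]
          linarith)
      have h3 : (0 : ℝ) ≤ ((yy d t R : ℝ) ^ 2 - (yy d t P : ℝ) ^ 2) *
          ((yy d t R : ℝ) ^ 2 - (yy d t Q : ℝ) ^ 2) := by exact_mod_cast h2
      have e : ∀ w A B : ℝ, w * A * (w * B) = w ^ 2 * (A * B) := by intro w A B; ring
      rw [e]
      exact mul_nonneg (sq_nonneg _) h3
    constructor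
    · rintro ⟨h2, h3⟩
      have := mul_neg_of_pos_of_neg (sub_pos.mpr h2) (sub_neg.mpr h3)
      linarith
    · rintro ⟨h2, h3⟩
      have := mul_neg_of_neg_of_pos (sub_neg.mpr h3) (sub_pos.mpr h2)
      linarith
  · have h2 := hG R hR P hP h1
    have h3 := hG R hR Q hQ (hb ▸ h1)
    exact ⟨fun h => absurd h.1 (not_lt.mpr h2.le), fun h => absurd h.1 (not_lt.mpr h3.le)⟩

/-! ### The family -/

/-- the square grid -/
noncomputable def G (m : ℕ) : Finset (ℤ × ℤ) := Finset.Ico (0 : ℤ) m ×ˢ Finset.Ico (0 : ℤ) m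

/-- the index set of the family -/
noncomputable def Fam (m : ℕ) : Finset ((ℤ × ℤ) × Bool) :=
  (Finset.Icc (-(2 * m : ℤ)) (2 * m) ×ˢ Finset.Icc (-(2 * m : ℤ)) (2 * m)) ×ˢ Finset.univ

/-- primitive direction of a vector -/
def dv (v : ℤ × ℤ) : ℤ × ℤ :=
  if v = 0 then (1, 0) else (v.1 / (Int.gcd v.1 v.2 : ℤ), v.2 / (Int.gcd v.1 v.2 : ℤ))

/-- multiplicity -/
def tv (z : (ℤ × ℤ) × Bool) : ℤ := if z.2 then (Int.gcd z.1.1 z.1.2 : ℤ) else 0

theorem card_G (m : ℕ) : (G m).card = m * m := by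
  simp [G]

theorem card_Fam (m : ℕ) : (Fam m).card = (4 * m + 1) * (4 * m + 1) * 2 := by
  unfold Fam
  rw [Finset.card_product, Finset.card_product, Int.card_Icc]
  have : (2 * (m : ℤ) + 1 - -(2 * (m : ℤ))).toNat = 4 * m + 1 := by omega
  rw [this]
  rfl

theorem N_pos_of_ne {v : ℤ × ℤ} (hv : v ≠ 0) : 0 < N v := by
  unfold N
  by_contra hc
  have h1 : v.1 ^ 2 = 0 := by nlinarith [sq_nonneg v.1, sq_nonneg v.2]
  have h2 : v.2 ^ 2 = 0 := by nlinarith [sq_nonneg v.1, sq_nonneg v.2]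
  exact hv (Prod.ext (pow_eq_zero_iff two_ne_zero |>.mp h1) (pow_eq_zero_iff two_ne_zero |>.mp h2))

theorem gcd_pos_of_ne {v : ℤ × ℤ} (hv : v ≠ 0) : 0 < Int.gcd v.1 v.2 := by
  rw [Int.gcd_pos_iff]
  by_contra hc
  push Not at hc
  exact hv (Prod.ext hc.1 hc.2)

theorem dv_mul {v : ℤ × ℤ} (hv : v ≠ 0) :
    v.1 = (Int.gcd v.1 v.2 : ℤ) * (dv v).1 ∧ v.2 = (Int.gcd v.1 v.2 : ℤ) * (dv v).2 := by
  unfold dv
  rw [if_neg hv]
  exact ⟨(Int.mul_ediv_cancel' (Int.gcd_dvd_left ..)).symm,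
    (Int.mul_ediv_cancel' (Int.gcd_dvd_right ..)).symm⟩

theorem N_dv_pos (v : ℤ × ℤ) : 0 < N (dv v) := by
  by_cases hv : v = 0
  · unfold dv
    rw [if_pos hv]
    decide
  · apply N_pos_of_ne
    intro h
    obtain ⟨h1, h2⟩ := dv_mul hv
    rw [h] at h1 h2
    exact hv (Prod.ext (by simpa using h1) (by simpa using h2))

theorem dv_cop {v : ℤ × ℤ} (hv : v ≠ 0) : IsCoprime (dv v).1 (dv v).2 := by
  unfold dv
  rw [if_neg hv, Int.isCoprime_iff_gcd_eq_one]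
  exact Int.gcd_ediv_gcd_ediv_gcd (gcd_pos_of_ne hv)

/-- all vectors `t • d` with `t > 0`, `d` primitive, have `d` as their direction -/
theorem dv_smul {d : ℤ × ℤ} (hd : IsCoprime d.1 d.2) {t : ℤ} (ht : 0 < t) :
    dv (t * d.1, t * d.2) = d ∧ (Int.gcd (t * d.1) (t * d.2) : ℤ) = t := by
  have hg : (Int.gcd (t * d.1) (t * d.2) : ℤ) = t := by
    rw [Int.gcd_mul_left, Int.isCoprime_iff_gcd_eq_one.mp hd, mul_one]
    exact Int.natAbs_of_nonneg ht.le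
  refine ⟨?_, hg⟩
  have hne : (t * d.1, t * d.2) ≠ (0 : ℤ × ℤ) := by
    intro h
    have h1 : t * d.1 = 0 := congrArg Prod.fst h
    have h2 : t * d.2 = 0 := congrArg Prod.snd h
    have h3 := (mul_eq_zero.mp h1).resolve_left ht.ne'
    have h4 := (mul_eq_zero.mp h2).resolve_left ht.ne'
    obtain ⟨x, y, hxy⟩ := hd
    rw [h3, h4] at hxy
    simp at hxy
  unfold dv
  rw [if_neg hne]
  show (t * d.1 / (Int.gcd (t * d.1) (t * d.2) : ℤ), t * d.2 / (Int.gcd (t * d.1) (t * d.2) : ℤ)) = d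
  rw [hg, Int.mul_ediv_cancel_left _ ht.ne', Int.mul_ediv_cancel_left _ ht.ne']

/-- a member of the family with given direction and multiplicity -/
theorem exists_index {m : ℕ} {d : ℤ × ℤ} (hd : IsCoprime d.1 d.2) {t : ℤ} (ht : 0 ≤ t)
    (h1 : |d.1| ≤ 2 * m) (h2 : |d.2| ≤ 2 * m) (h3 : t * |d.1| ≤ 2 * m) (h4 : t * |d.2| ≤ 2 * m) :
    ∃ z ∈ Fam m, dv z.1 = d ∧ tv z = t := by
  rcases ht.eq_or_lt with h | h
  · refine ⟨(d, false), ?_, ?_, ?_⟩
    · simp only [Fam, Finset.mem_product, Finset.mem_Icc, Finset.mem_univ, and_true]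
      obtain ⟨a1, a2⟩ := abs_le.mp h1
      obtain ⟨b1, b2⟩ := abs_le.mp h2
      exact ⟨⟨a1, a2⟩, ⟨b1, b2⟩⟩
    · have := (dv_smul hd (t := 1) one_pos).1
      simpa using this
    · show (if (false : Bool) = true then _ else (0 : ℤ)) = t
      rw [← h]
      rfl
  · refine ⟨((t * d.1, t * d.2), true), ?_, ?_, ?_⟩
    · simp only [Fam, Finset.mem_product, Finset.mem_Icc, Finset.mem_univ, and_true]
      have e1 : |t * d.1| ≤ 2 * m := by rw [abs_mul, abs_of_pos h]; exact h3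
      have e2 : |t * d.2| ≤ 2 * m := by rw [abs_mul, abs_of_pos h]; exact h4
      obtain ⟨a1, a2⟩ := abs_le.mp e1
      obtain ⟨b1, b2⟩ := abs_le.mp e2
      exact ⟨⟨a1, a2⟩, ⟨b1, b2⟩⟩
    · exact (dv_smul hd h).1
    · exact (dv_smul hd h).2

theorem mem_G {m : ℕ} {P : ℤ × ℤ} : P ∈ G m ↔ (0 ≤ P.1 ∧ P.1 < m) ∧ (0 ≤ P.2 ∧ P.2 < m) := by
  simp [G]

/-- the direction and the multiplicity for a pair of points -/
theorem exists_dt {m : ℕ} {P Q : ℤ × ℤ} (hP : P ∈ G m) (hQ : Q ∈ G m) (hne : P ≠ Q)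
    (hs : 0 ≤ (Q.1 - P.1) * (P.1 + Q.1) + (Q.2 - P.2) * (P.2 + Q.2)) :
    ∃ z ∈ Fam m, IsCoprime (dv z.1).1 (dv z.1).2 ∧ (∃ a : ℤ, Q.1 = P.1 + a * (dv z.1).1 ∧
      Q.2 = P.2 + a * (dv z.1).2) ∧
      |4 * tv z * N (dv z.1) + 1 - 2 * (sd (dv z.1) P + sd (dv z.1) Q)| < 2 * N (dv z.1) := by
  have hv : (Q.1 - P.1, Q.2 - P.2) ≠ (0 : ℤ × ℤ) := by
    intro h
    have h1 : Q.1 - P.1 = 0 := congrArg Prod.fst h
    have h2 : Q.2 - P.2 = 0 := congrArg Prod.snd h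
    exact hne (Prod.ext (by omega) (by omega))
  obtain ⟨g, hg⟩ : ∃ g : ℤ, g = (Int.gcd (Q.1 - P.1) (Q.2 - P.2) : ℤ) := ⟨_, rfl⟩
  obtain ⟨d, hd⟩ : ∃ d, d = dv (Q.1 - P.1, Q.2 - P.2) := ⟨_, rfl⟩
  have hcop : IsCoprime d.1 d.2 := hd ▸ dv_cop hv
  have hN : 0 < N d := hd ▸ N_dv_pos _
  have hgpos : 0 < g := by
    rw [hg]
    exact_mod_cast gcd_pos_of_ne hv
  obtain ⟨e1, e2⟩ := dv_mul hv
  rw [← hd] at e1 e2
  simp only at e1 e2
  rw [← hg] at e1 e2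
  rw [mem_G] at hP hQ
  obtain ⟨⟨p1, p2⟩, ⟨p3, p4⟩⟩ := hP
  obtain ⟨⟨q1, q2⟩, ⟨q3, q4⟩⟩ := hQ
  obtain ⟨M, hM⟩ : ∃ M : ℤ, M = sd d P + sd d Q := ⟨_, rfl⟩
  have hM0 : 0 ≤ M := by
    have : g * M = (Q.1 - P.1) * (P.1 + Q.1) + (Q.2 - P.2) * (P.2 + Q.2) := by
      rw [e1, e2, hM]
      unfold sd
      ring
    by_contra hc
    have := mul_neg_of_pos_of_neg hgpos (not_le.mp hc)
    omega
  obtain ⟨t, ht⟩ : ∃ t : ℤ, t = (2 * M - 1 + 2 * N d) / (4 * N d) := ⟨_, rfl⟩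
  have ht1 : 4 * N d * t ≤ 2 * M - 1 + 2 * N d := by
    rw [ht]; exact Int.mul_ediv_self_le (by omega)
  have ht2 : 2 * M - 1 + 2 * N d < 4 * N d * t + 4 * N d := by
    rw [ht]; exact Int.lt_mul_ediv_self_add (by omega)
  have ht0 : 0 ≤ t := by
    rw [ht]
    apply Int.ediv_nonneg <;> omega
  obtain ⟨w, hw⟩ : ∃ w : ℤ, w = N d * t := ⟨_, rfl⟩
  have hkey : |4 * t * N d + 1 - 2 * M| < 2 * N d := by
    have f1 : 4 * N d * t = 4 * w := by rw [hw]; ring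
    have f2 : 4 * t * N d = 4 * w := by rw [hw]; ring
    rw [f1] at ht1 ht2
    rw [f2, abs_lt]
    constructor <;> omega
  -- bounds
  have hd1 : |d.1| ≤ m := by
    have : |d.1| ≤ |Q.1 - P.1| := by
      rw [e1, abs_mul, abs_of_pos hgpos]
      nlinarith [abs_nonneg d.1]
    refine this.trans ?_
    rw [abs_le]
    constructor <;> omega
  have hd2 : |d.2| ≤ m := by
    have : |d.2| ≤ |Q.2 - P.2| := by
      rw [e2, abs_mul, abs_of_pos hgpos]
      nlinarith [abs_nonneg d.2]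
    refine this.trans ?_
    rw [abs_le]
    constructor <;> omega
  have hMle : M ≤ 2 * m * (|d.1| + |d.2|) := by
    rw [hM]
    unfold sd
    have g1 : d.1 * (P.1 + Q.1) ≤ |d.1| * (2 * m) := by
      have h1 : d.1 * (P.1 + Q.1) ≤ |d.1| * (P.1 + Q.1) :=
        mul_le_mul_of_nonneg_right (le_abs_self _) (by omega)
      exact h1.trans (mul_le_mul_of_nonneg_left (by omega) (abs_nonneg _))
    have g2 : d.2 * (P.2 + Q.2) ≤ |d.2| * (2 * m) := by
      have h1 : d.2 * (P.2 + Q.2) ≤ |d.2| * (P.2 + Q.2) :=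
        mul_le_mul_of_nonneg_right (le_abs_self _) (by omega)
      exact h1.trans (mul_le_mul_of_nonneg_left (by omega) (abs_nonneg _))
    linarith
  have hNabs : N d = |d.1| ^ 2 + |d.2| ^ 2 := by
    unfold N
    rw [sq_abs, sq_abs]
  have hbound : ∀ x y : ℤ, 0 ≤ x → 0 ≤ y → x ≤ m → N d = x ^ 2 + y ^ 2 →
      M ≤ 2 * m * (x + y) → t * x ≤ 2 * m := by
    intro x y hx hy hxm hNxy hMxy
    -- `4 h t ≤ 2 M - 1 + 2 h`
    have k1 : 2 * ((x + y) * x) ≤ 3 * N d := by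
      rw [hNxy]; nlinarith [sq_nonneg (x - y)]
    have k2 : 4 * N d * (t * x) ≤ (2 * M + 2 * N d) * x := by
      have : 4 * N d * t * x ≤ (2 * M + 2 * N d) * x :=
        mul_le_mul_of_nonneg_right (by linarith) hx
      linarith
    have k3 : M * x ≤ 2 * m * (x + y) * x := mul_le_mul_of_nonneg_right hMxy hx
    have k4 : 2 * m * (x + y) * x ≤ m * (3 * N d) := by
      have := mul_le_mul_of_nonneg_left k1 (Nat.cast_nonneg m : (0 : ℤ) ≤ m)
      linarith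
    have k5 : N d * x ≤ N d * m := mul_le_mul_of_nonneg_left hxm hN.le
    have k6 : 4 * N d * (t * x) ≤ 4 * N d * (2 * m) := by linarith
    exact le_of_mul_le_mul_left k6 (by omega)
  have hb1 : t * |d.1| ≤ 2 * m :=
    hbound |d.1| |d.2| (abs_nonneg _) (abs_nonneg _) hd1 hNabs hMle
  have hb2 : t * |d.2| ≤ 2 * m :=
    hbound |d.2| |d.1| (abs_nonneg _) (abs_nonneg _) hd2 (by rw [hNabs]; ring) (by linarith)
  obtain ⟨z, hz, hz1, hz2⟩ := exists_index (m := m) hcop ht0 (by omega) (by omega) hb1 hb2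
  refine ⟨z, hz, ?_, ⟨g, ?_, ?_⟩, ?_⟩
  · rw [hz1]; exact hcop
  · rw [hz1]; linarith
  · rw [hz1]; linarith
  · rw [hz1, hz2, ← hM]; exact hkey

/-- a good value of `ε` -/
theorem exists_eps (m : ℕ) (hm : 0 < m) : ∃ ε : ℝ, 0 < ε ∧
    (∀ z ∈ G m ×ˢ G m, z.1 ≠ z.2 → 1 / 2 < dist (f ε z.1) (f ε z.2)) ∧
    (∀ z ∈ G m ×ˢ G m, dist (f ε z.1) (f ε z.2) < 2 * m) ∧
    (∀ z ∈ G m ×ˢ G m ×ˢ G m, z.1 ≠ z.2.1 → z.2.1 ≠ z.2.2 → z.1 ≠ z.2.2 →
      dt ε z.1 z.2.1 z.2.2 ≠ 0) ∧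
    (∀ z ∈ Fam m ×ˢ G m ×ˢ G m, bd (dv z.1.1) z.2.1 < bd (dv z.1.1) z.2.2 →
      inner ℝ (f ε z.2.1) (U ε (dv z.1.1) (kap (dv z.1.1) (tv z.1))) <
        inner ℝ (f ε z.2.2) (U ε (dv z.1.1) (kap (dv z.1.1) (tv z.1)))) := by
  have h1 : ∀ᶠ ε in 𝓝[>] (0 : ℝ), ∀ z ∈ G m ×ˢ G m, z.1 ≠ z.2 →
      1 / 2 < dist (f ε z.1) (f ε z.2) := by
    rw [eventually_all_finset]
    intro z _
    by_cases h : z.1 ≠ z.2
    · filter_upwards [ev_near z.1 z.2 h] with ε hε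
      exact fun _ => hε
    · exact Eventually.of_forall fun ε h' => absurd h' h
  have h2 : ∀ᶠ ε in 𝓝[>] (0 : ℝ), ∀ z ∈ G m ×ˢ G m, dist (f ε z.1) (f ε z.2) < 2 * m := by
    rw [eventually_all_finset]
    intro z hz
    rw [Finset.mem_product, mem_G, mem_G] at hz
    apply ev_far m hm
    · rw [abs_le]; constructor <;> omega
    · rw [abs_le]; constructor <;> omega
  have h3 : ∀ᶠ ε in 𝓝[>] (0 : ℝ), ∀ z ∈ G m ×ˢ G m ×ˢ G m, z.1 ≠ z.2.1 → z.2.1 ≠ z.2.2 →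
      z.1 ≠ z.2.2 → dt ε z.1 z.2.1 z.2.2 ≠ 0 := by
    rw [eventually_all_finset]
    intro z _
    by_cases h : z.1 ≠ z.2.1 ∧ z.2.1 ≠ z.2.2 ∧ z.1 ≠ z.2.2
    · filter_upwards [ev_dt z.1 z.2.1 z.2.2 h.1 h.2.1 h.2.2] with ε hε
      exact fun _ _ _ => hε
    · exact Eventually.of_forall fun ε a b c => absurd ⟨a, b, c⟩ h
  have h4 : ∀ᶠ ε in 𝓝[>] (0 : ℝ), ∀ z ∈ Fam m ×ˢ G m ×ˢ G m,
      bd (dv z.1.1) z.2.1 < bd (dv z.1.1) z.2.2 →
      inner ℝ (f ε z.2.1) (U ε (dv z.1.1) (kap (dv z.1.1) (tv z.1))) <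
        inner ℝ (f ε z.2.2) (U ε (dv z.1.1) (kap (dv z.1.1) (tv z.1))) := by
    rw [eventually_all_finset]
    intro z _
    by_cases h : bd (dv z.1.1) z.2.1 < bd (dv z.1.1) z.2.2
    · filter_upwards [ev_bd (dv z.1.1) (kap (dv z.1.1) (tv z.1)) z.2.1 z.2.2 (N_dv_pos _) h] with ε hε
      exact fun _ => hε
    · exact Eventually.of_forall fun ε h' => absurd h' h
  obtain ⟨ε, ⟨⟨⟨⟨g1, g2⟩, g3⟩, g4⟩, g5⟩⟩ :=
    ((((h1.and h2).and h3).and h4).and self_mem_nhdsWithin).exists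
  exact ⟨ε, g5, g1, g2, g3, g4⟩

/-- There are constants `α` and `C` such that for every `n ≥ 1` there is an `α`-dense `n`-point set
`A` in general position with `mc(A) ≤ C n`. -/
theorem result : ∃ (α : ℝ) (C : ℕ), 0 < α ∧ ∀ n : ℕ, 1 ≤ n → ∃ A : Finset Plane,
    A.card = n ∧ GeneralPosition A ∧ IsDense α A ∧ mc A ≤ C * n := by
  classical
  refine ⟨8, 200, by norm_num, ?_⟩
  intro n hn
  obtain ⟨r, hr⟩ : ∃ r, r = Nat.sqrt n := ⟨_, rfl⟩
  have hr1 : 1 ≤ r := by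
    rw [hr]
    exact Nat.le_sqrt'.mpr (by simpa using hn)
  have hr2 : r * r ≤ n := by rw [hr]; exact Nat.sqrt_le n
  have hr3 : n < (r + 1) * (r + 1) := by rw [hr]; exact Nat.lt_succ_sqrt n
  obtain ⟨m, hm⟩ : ∃ m, m = r + 1 := ⟨_, rfl⟩
  have hm0 : 0 < m := by omega
  obtain ⟨ε, hε, hnear, hfar, hdt, hbd⟩ := exists_eps m hm0
  obtain ⟨G', hG', hcard⟩ := Finset.exists_subset_card_eq (s := G m) (n := n) (by
    rw [card_G, hm]; omega)
  have hinj : ∀ P ∈ G m, ∀ Q ∈ G m, f ε P = f ε Q → P = Q := by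
    intro P hP Q hQ h
    by_contra hne
    have := hnear (P, Q) (Finset.mem_product.mpr ⟨hP, hQ⟩) hne
    simp only [h, dist_self] at this
    norm_num at this
  have hAcard : (G'.image (f ε)).card = n := by
    rw [Finset.card_image_of_injOn, hcard]
    intro P hP Q hQ h
    exact hinj P (hG' hP) Q (hG' hQ) h
  have hmem : ∀ p ∈ G'.image (f ε), ∃ P ∈ G m, P ∈ G' ∧ f ε P = p := by
    intro p hp
    obtain ⟨P, hP, rfl⟩ := Finset.mem_image.mp hp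
    exact ⟨P, hG' hP, hP, rfl⟩
  refine ⟨G'.image (f ε), hAcard, ?_, ?_, ?_⟩
  · intro a ha b hb c hc hab hbc hac
    obtain ⟨P, hP, -, rfl⟩ := hmem a ha
    obtain ⟨Q, hQ, -, rfl⟩ := hmem b hb
    obtain ⟨R, hR, -, rfl⟩ := hmem c hc
    apply not_collinear
    exact hdt (P, Q, R) (Finset.mem_product.mpr ⟨hP, Finset.mem_product.mpr ⟨hQ, hR⟩⟩)
      (fun h => hab (congrArg (f ε) h)) (fun h => hbc (congrArg (f ε) h))
      (fun h => hac (congrArg (f ε) h))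
  · intro a ha b hb c hc d hd hcd
    obtain ⟨P, hP, -, rfl⟩ := hmem a ha
    obtain ⟨Q, hQ, -, rfl⟩ := hmem b hb
    obtain ⟨R, hR, -, rfl⟩ := hmem c hc
    obtain ⟨T, hT, -, rfl⟩ := hmem d hd
    have h1 := hfar (P, Q) (Finset.mem_product.mpr ⟨hP, hQ⟩)
    have h2 := hnear (R, T) (Finset.mem_product.mpr ⟨hR, hT⟩) (fun h => hcd (congrArg (f ε) h))
    simp only at h1 h2
    rw [hAcard]
    have h3 : (m : ℝ) ≤ 2 * √(n : ℝ) := by
      have h4 : (r : ℝ) ≤ √(n : ℝ) := by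
        apply Real.le_sqrt_of_sq_le
        have : r ^ 2 ≤ n := by rw [sq]; exact hr2
        exact_mod_cast this
      have h5 : (m : ℝ) ≤ 2 * r := by
        have : m ≤ 2 * r := by omega
        exact_mod_cast this
      linarith
    have h6 : 0 ≤ √(n : ℝ) := Real.sqrt_nonneg _
    have h7 : 8 * √(n : ℝ) * (1 / 2) ≤ 8 * √(n : ℝ) * dist (f ε R) (f ε T) :=
      mul_le_mul_of_nonneg_left h2.le (by positivity)
    linarith
  · have hcov : HasCover (G'.image (f ε)) (Fintype.card (Fam m)) := by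
      have hpath : ∀ z : Fam m, ∃ v : Fin (G'.image (f ε)).card → Plane,
          IsMonotonePath (G'.image (f ε)) v ∧ ∀ p ∈ G'.image (f ε), ∀ q ∈ G'.image (f ε),
          inner ℝ p (U ε (dv z.1.1) (kap (dv z.1.1) (tv z.1))) <
            inner ℝ q (U ε (dv z.1.1) (kap (dv z.1.1) (tv z.1))) →
          (∀ s ∈ G'.image (f ε), ¬ (inner ℝ p (U ε (dv z.1.1) (kap (dv z.1.1) (tv z.1))) <
            inner ℝ s (U ε (dv z.1.1) (kap (dv z.1.1) (tv z.1))) ∧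
            inner ℝ s (U ε (dv z.1.1) (kap (dv z.1.1) (tv z.1))) <
              inner ℝ q (U ε (dv z.1.1) (kap (dv z.1.1) (tv z.1))))) → IsEdge v p q := by
        intro z
        apply exists_sorted_path
        intro p hp q hq h
        obtain ⟨P, hP, -, rfl⟩ := hmem p hp
        obtain ⟨Q, hQ, -, rfl⟩ := hmem q hq
        congr 1
        refine inner_inj hε (N_dv_pos _) (G := G m) ?_ hP hQ h
        intro P hP Q hQ h
        exact hbd (z.1, P, Q) (Finset.mem_product.mpr ⟨z.2, Finset.mem_product.mpr ⟨hP, hQ⟩⟩) h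
      choose v hv1 hv2 using hpath
      refine hasCover_of_fintype _ _ v hv1 ?_
      have main : ∀ P ∈ G', ∀ Q ∈ G', P ≠ Q →
          0 ≤ (Q.1 - P.1) * (P.1 + Q.1) + (Q.2 - P.2) * (P.2 + Q.2) →
          ∃ z, IsEdge (v z) (f ε P) (f ε Q) := by
        intro P hP Q hQ hne hs
        obtain ⟨z, hz, hcop, ⟨a, ha1, ha2⟩, hkey⟩ := exists_dt (hG' hP) (hG' hQ) hne hs
        refine ⟨⟨z, hz⟩, ?_⟩
        have hGz : ∀ P ∈ G m, ∀ Q ∈ G m, bd (dv z.1) P < bd (dv z.1) Q →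
            inner ℝ (f ε P) (U ε (dv z.1) (kap (dv z.1) (tv z))) <
              inner ℝ (f ε Q) (U ε (dv z.1) (kap (dv z.1) (tv z))) := by
          intro P hP Q hQ h
          exact hbd (z, P, Q) (Finset.mem_product.mpr ⟨hz, Finset.mem_product.mpr ⟨hP, hQ⟩⟩) h
        have hcons : ∀ R ∈ G m, _ := fun R hR => consecutive (R := R) (N_dv_pos z.1) hcop hGz
          (hG' hP) (hG' hQ) hR ha1 ha2 hkey
        have hPm := Finset.mem_image_of_mem (f ε) hP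
        have hQm := Finset.mem_image_of_mem (f ε) hQ
        rcases lt_trichotomy (inner ℝ (f ε P) (U ε (dv z.1) (kap (dv z.1) (tv z))))
          (inner ℝ (f ε Q) (U ε (dv z.1) (kap (dv z.1) (tv z)))) with h | h | h
        · refine hv2 ⟨z, hz⟩ _ hPm _ hQm h ?_
          intro s hs
          obtain ⟨R, hR, -, rfl⟩ := hmem s hs
          exact (hcons R hR).1
        · exact absurd (inner_inj hε (N_dv_pos _) hGz (hG' hP) (hG' hQ) h) hne
        · refine (hv2 ⟨z, hz⟩ _ hQm _ hPm h ?_).symm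
          intro s hs
          obtain ⟨R, hR, -, rfl⟩ := hmem s hs
          exact (hcons R hR).2
      intro p hp q hq hne
      obtain ⟨P, -, hP, rfl⟩ := hmem p hp
      obtain ⟨Q, -, hQ, rfl⟩ := hmem q hq
      have hne' : P ≠ Q := fun h => hne (congrArg (f ε) h)
      by_cases hs : 0 ≤ (Q.1 - P.1) * (P.1 + Q.1) + (Q.2 - P.2) * (P.2 + Q.2)
      · exact main P hP Q hQ hne' hs
      · obtain ⟨z, hz⟩ := main Q hQ P hP hne'.symm (by
          have : (P.1 - Q.1) * (Q.1 + P.1) + (P.2 - Q.2) * (Q.2 + P.2) =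
            -((Q.1 - P.1) * (P.1 + Q.1) + (Q.2 - P.2) * (P.2 + Q.2)) := by ring
          rw [this]
          omega)
        exact ⟨z, hz.symm⟩
    refine (mc_le hcov).trans ?_
    rw [Fintype.card_coe, card_Fam]
    have h1 : m ≤ 2 * r := by omega
    have h2 : 4 * m + 1 ≤ 5 * m := by omega
    have h3 : (4 * m + 1) * (4 * m + 1) ≤ (5 * m) * (5 * m) := Nat.mul_le_mul h2 h2
    have h4 : m * m ≤ (2 * r) * (2 * r) := Nat.mul_le_mul h1 h1
    nlinarith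

end Pool.Agent.Results.MP_9c8b61_co.LinearCover
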